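import Mathlib

set_option autoImplicit false

namespace Pool.Agent.Helper23_QRoots

open Submodule Module

section orb

variable {D V : Type*} [DivisionRing D] [AddCommGroup V] [Module D V] {ι : Type*}

/-- span of the orbits of the vectors `b i` under `T` -/
def orb (T : V →ₗ[D] V) (b : ι → V) : Submodule D V :=
  span D (Set.range fun x : ι × ℕ => (T ^ x.2) (b x.1))

theorem pow_mem_orb (T : V →ₗ[D] V) (b : ι → V) (i : ι) (j : ℕ) : (T ^ j) (b i) ∈ orb T b :=
  subset_span ⟨(i, j), rfl⟩

theorem mem_orb (T : V →ₗ[D] V) (b : ι → V) (i : ι) : b i ∈ orb T b := by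
  simpa using pow_mem_orb T b i 0

theorem map_mem_orb (T : V →ₗ[D] V) (b : ι → V) {v : V} (hv : v ∈ orb T b) : T v ∈ orb T b := by
  unfold orb at hv ⊢
  induction hv using span_induction with
  | mem x hx =>
    obtain ⟨y, rfl⟩ := hx
    refine subset_span ⟨(y.1, y.2 + 1), ?_⟩
    simp [pow_succ']
  | zero => simp
  | add x y _ _ hx hy => rw [map_add]; exact add_mem hx hy
  | smul a x _ hx => rw [map_smul]; exact smul_mem _ a hx

theorem map_pow_mem_orb (T : V →ₗ[D] V) (b : ι → V) {v : V} (hv : v ∈ orb T b) (j : ℕ) :
    (T ^ j) v ∈ orb T b := by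
  induction j with
  | zero => simpa using hv
  | succ j ih => rw [pow_succ', Module.End.mul_apply]; exact map_mem_orb T b ih

theorem orb_le {ι' : Type*} (T : V →ₗ[D] V) (b : ι → V) (b' : ι' → V)
    (h : ∀ i, b i ∈ orb T b') : orb T b ≤ orb T b' := by
  unfold orb
  rw [span_le]
  rintro _ ⟨x, rfl⟩
  exact map_pow_mem_orb T b' (h x.1) x.2

/-- if `T^(s i) (b i) = 0` then the orbit span is spanned by the finitely many vectors
`T^j (b i)`, `j < s i` -/
theorem orb_eq_span_fin (T : V →ₗ[D] V) (b : ι → V) (s : ι → ℕ)
    (hzero : ∀ i, (T ^ (s i)) (b i) = 0) :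
    orb T b = span D (Set.range fun x : (Σ i, Fin (s i)) => (T ^ (x.2 : ℕ)) (b x.1)) := by
  apply le_antisymm
  · unfold orb
    rw [span_le]
    rintro _ ⟨⟨i, j⟩, rfl⟩
    by_cases hj : j < s i
    · exact subset_span ⟨⟨i, ⟨j, hj⟩⟩, rfl⟩
    · have : (T ^ j) (b i) = 0 := by
        obtain ⟨k, rfl⟩ := Nat.exists_eq_add_of_le (not_lt.mp hj)
        rw [add_comm, pow_add, Module.End.mul_apply, hzero, map_zero]
      simp only [SetLike.mem_coe]
      rw [this]
      exact zero_mem _
  · rw [span_le]
    rintro _ ⟨⟨i, j⟩, rfl⟩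
    exact pow_mem_orb T b i j

theorem pow_eq_zero_of_le {T : V →ₗ[D] V} {v : V} {a c : ℕ} (h : (T ^ a) v = 0) (hac : a ≤ c) :
    (T ^ c) v = 0 := by
  obtain ⟨k, rfl⟩ := Nat.exists_eq_add_of_le hac
  rw [add_comm, pow_add, Module.End.mul_apply, h, map_zero]

end orb

section li

variable {D V : Type*} [DivisionRing D] [AddCommGroup V] [Module D V] {ι : Type*} [Fintype ι]

/-- If the last vectors of the chains are linearly independent, so is the whole family. -/
theorem li_of_last (T : V →ₗ[D] V) (s : ι → ℕ) (b : ι → V)
    (hzero : ∀ i, (T ^ (s i)) (b i) = 0)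
    (hli : LinearIndependent D (fun i : {i // 0 < s i} => (T ^ (s i - 1)) (b i))) :
    LinearIndependent D (fun x : (Σ i, Fin (s i)) => (T ^ (x.2 : ℕ)) (b x.1)) := by
  classical
  rw [Fintype.linearIndependent_iff] at hli ⊢
  intro g hg
  -- downward induction
  set M := (∑ i, s i) + 1 with hM
  have hbound : ∀ i, s i < M := by
    intro i
    have := Finset.single_le_sum (f := s) (fun _ _ => Nat.zero_le _) (Finset.mem_univ i)
    omega
  have key : ∀ k, k < M → ∀ x : (Σ i, Fin (s i)), M - k ≤ s x.1 - (x.2 : ℕ) → g x = 0 := by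
    intro k
    induction k with
    | zero =>
      intro _ x hx
      have := hbound x.1
      omega
    | succ k ih =>
      intro hk x hx
      have ih' := ih (by omega)
      set d := M - (k + 1) with hd
      have hd1 : 1 ≤ d := by omega
      by_cases hxd : d < s x.1 - (x.2 : ℕ)
      · exact ih' x (by omega)
      have hxd' : s x.1 - (x.2 : ℕ) = d := by omega
      -- apply T^(d-1)
      have h1 : ∑ y : (Σ i, Fin (s i)), g y • (T ^ ((d - 1) + (y.2 : ℕ))) (b y.1) = 0 := by
        have := congrArg (fun v => (T ^ (d - 1)) v) hg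
        simp only [map_sum, map_smul, map_zero] at this
        rw [← this]
        refine Finset.sum_congr rfl fun y _ => ?_
        rw [pow_add, Module.End.mul_apply]
      rw [Fintype.sum_sigma] at h1
      let h : {i // 0 < s i} → D := fun i =>
        if hi : d ≤ s i then g ⟨i, ⟨s i - d, by have := i.2; omega⟩⟩ else 0
      have h2 : ∑ i : {i // 0 < s i}, h i • (T ^ (s i - 1)) (b i) = 0 := by
        rw [← h1]
        have hsplit : ∑ i, ∑ y : Fin (s i), g ⟨i, y⟩ • (T ^ ((d - 1) + (y : ℕ))) (b i) =
            ∑ i ∈ Finset.univ.filter (fun i => 0 < s i),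
              ∑ y : Fin (s i), g ⟨i, y⟩ • (T ^ ((d - 1) + (y : ℕ))) (b i) := by
          symm
          apply Finset.sum_subset (Finset.filter_subset _ _)
          intro i _ hi
          rw [Finset.mem_filter] at hi
          have hi0 : s i = 0 := by
            by_contra hne
            exact hi ⟨Finset.mem_univ _, by omega⟩
          apply Finset.sum_eq_zero
          intro y _
          have := y.2
          omega
        rw [hsplit, ← Finset.sum_subtype_of_mem _ (p := fun i => 0 < s i)
          (fun i hi => (Finset.mem_filter.mp hi).2)]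
        have huniv : (Finset.univ.filter (fun i => 0 < s i)).subtype (fun i => 0 < s i) =
            (Finset.univ : Finset {i // 0 < s i}) := by
          ext i; simp [i.2]
        rw [huniv]
        refine Finset.sum_congr rfl fun i _ => ?_
        by_cases hi : d ≤ s i
        · rw [Finset.sum_eq_single ⟨s i - d, by omega⟩]
          · simp only [h, dif_pos hi]
            congr 3
            omega
          · intro y _ hy
            by_cases hyd : d < s i - (y : ℕ)
            · rw [ih' ⟨i, y⟩ (by simp only; omega), zero_smul]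
            · have hyne : (y : ℕ) ≠ s i - d := fun h' => hy (Fin.ext h')
              have : (T ^ ((d - 1) + (y : ℕ))) (b i) = 0 :=
                pow_eq_zero_of_le (hzero i) (by have := y.2; omega)
              rw [this, smul_zero]
          · intro hmem
            exact absurd (Finset.mem_univ _) hmem
        · simp only [h, dif_neg hi, zero_smul]
          symm
          apply Finset.sum_eq_zero
          intro y _
          have : (T ^ ((d - 1) + (y : ℕ))) (b i) = 0 :=
            pow_eq_zero_of_le (hzero i) (by omega)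
          rw [this, smul_zero]
      have h3 := hli h h2 ⟨x.1, by have := x.2.2; omega⟩
      have hdle : d ≤ s x.1 := by omega
      simp only [h, dif_pos hdle] at h3
      rw [← h3]
      congr 1
      apply Sigma.ext
      · rfl
      · simp only [heq_eq_eq]
        apply Fin.ext
        simp only
        have := x.2.2
        omega
  intro x
  exact key (M - 1) (by omega) x (by have := x.2.2; omega)

end li

section frame

variable {D V : Type*} [DivisionRing D] [AddCommGroup V] [Module D V] {ι : Type*} [Fintype ι]

/-- Jordan frames: chains of lengths `s i` generated by `b i` (zero lengths allowed) -/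
structure IsFrame (T : V →ₗ[D] V) (s : ι → ℕ) (b : ι → V) : Prop where
  zero : ∀ i, (T ^ (s i)) (b i) = 0
  span : orb T b = ⊤
  card : ∑ i, s i = finrank D V

theorem IsFrame.li {T : V →ₗ[D] V} {s : ι → ℕ} {b : ι → V} (h : IsFrame T s b) :
    LinearIndependent D (fun x : (Σ i, Fin (s i)) => (T ^ (x.2 : ℕ)) (b x.1)) := by
  apply linearIndependent_of_top_le_span_of_card_eq_finrank
  · rw [← orb_eq_span_fin T b s h.zero, h.span]
  · rw [← h.card]; simp

theorem IsFrame.li_last {T : V →ₗ[D] V} {s : ι → ℕ} {b : ι → V} (h : IsFrame T s b) :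
    LinearIndependent D (fun i : {i // 0 < s i} => (T ^ (s i - 1)) (b i)) := by
  have := h.li.comp (fun i : {i // 0 < s i} => (⟨i.1, ⟨s i - 1, by have := i.2; omega⟩⟩ :
    (Σ i, Fin (s i)))) (by
      intro i j hij
      simp only [Sigma.mk.injEq] at hij
      exact Subtype.ext hij.1)
  exact this

theorem isFrame_of_last [FiniteDimensional D V] {T : V →ₗ[D] V} {s : ι → ℕ} {b : ι → V}
    (hzero : ∀ i, (T ^ (s i)) (b i) = 0)
    (hli : LinearIndependent D (fun i : {i // 0 < s i} => (T ^ (s i - 1)) (b i)))
    (hcard : ∑ i, s i = finrank D V) : IsFrame T s b := by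
  refine ⟨hzero, ?_, hcard⟩
  rw [orb_eq_span_fin T b s hzero]
  exact (li_of_last T s b hzero hli).span_eq_top_of_card_eq_finrank' (by rw [← hcard]; simp)

theorem card_ge (T : V →ₗ[D] V) (s : ι → ℕ) (b : ι → V)
    (hzero : ∀ i, (T ^ (s i)) (b i) = 0) (hspan : orb T b = ⊤) :
    finrank D V ≤ ∑ i, s i := by
  have h1 : span D (Set.range fun x : (Σ i, Fin (s i)) => (T ^ (x.2 : ℕ)) (b x.1)) = ⊤ := by
    rw [← orb_eq_span_fin T b s hzero, hspan]
  have h2 := finrank_range_le_card (R := D)
    (fun x : (Σ i, Fin (s i)) => (T ^ (x.2 : ℕ)) (b x.1))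
  rw [Set.finrank, h1, finrank_top] at h2
  simpa using h2

/-- Existence of Jordan frames. -/
theorem exists_frame [FiniteDimensional D V] (T : V →ₗ[D] V) (hT : IsNilpotent T) :
    ∃ (s : Fin (finrank D V) → ℕ) (b : Fin (finrank D V) → V), IsFrame T s b := by
  classical
  obtain ⟨N, hN⟩ := hT
  let P : ℕ → Prop := fun m => ∃ (s : Fin (finrank D V) → ℕ) (b : Fin (finrank D V) → V),
    (∀ i, (T ^ (s i)) (b i) = 0) ∧ orb T b = ⊤ ∧ ∑ i, s i = m
  have hP : ∃ m, P m := by
    refine ⟨_, fun _ => N, fun i => finBasis D V i, ?_, ?_, rfl⟩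
    · intro i; rw [hN]; simp
    · rw [eq_top_iff, ← (finBasis D V).span_eq, span_le]
      rintro _ ⟨i, rfl⟩
      exact mem_orb T _ i
  obtain ⟨s, b, hzero, hspan, hsum⟩ := Nat.find_spec hP
  have hmin : ∀ m, m < Nat.find hP → ¬ P m := fun m hm => Nat.find_min hP hm
  have hli : LinearIndependent D (fun i : {i // 0 < s i} => (T ^ (s i - 1)) (b i)) := by
    by_contra hnot
    rw [Fintype.not_linearIndependent_iff] at hnot
    obtain ⟨g, hg, i1, hi1⟩ := hnot
    let c : Fin (finrank D V) → D := fun i => if h : 0 < s i then g ⟨i, h⟩ else 0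
    have hcpos : ∀ i, c i ≠ 0 → 0 < s i := by
      intro i hi
      by_contra h
      exact hi (by simp only [c, dif_neg h])
    have hc : ∑ i, c i • (T ^ (s i - 1)) (b i) = 0 := by
      rw [← hg]
      have hsplit : ∑ i, c i • (T ^ (s i - 1)) (b i) =
          ∑ i ∈ Finset.univ.filter (fun i => 0 < s i), c i • (T ^ (s i - 1)) (b i) := by
        symm
        apply Finset.sum_subset (Finset.filter_subset _ _)
        intro i _ hi
        rw [Finset.mem_filter] at hi
        have hi0 : ¬ 0 < s i := fun h => hi ⟨Finset.mem_univ _, h⟩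
        simp only [c, dif_neg hi0, zero_smul]
      rw [hsplit, ← Finset.sum_subtype_of_mem _ (p := fun i => 0 < s i)
        (fun i hi => (Finset.mem_filter.mp hi).2)]
      have huniv : (Finset.univ.filter (fun i => 0 < s i)).subtype (fun i => 0 < s i) =
          (Finset.univ : Finset {i // 0 < s i}) := by
        ext i; simp [i.2]
      rw [huniv]
      refine Finset.sum_congr rfl fun i _ => ?_
      simp only [c, dif_pos i.2]
    have hne : (Finset.univ.filter (fun i => c i ≠ 0)).Nonempty := by
      refine ⟨i1.1, ?_⟩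
      rw [Finset.mem_filter]
      refine ⟨Finset.mem_univ _, ?_⟩
      simp only [c, dif_pos i1.2]
      exact hi1
    obtain ⟨i0, hi0, hi0min⟩ := Finset.exists_min_image _ s hne
    rw [Finset.mem_filter] at hi0
    have hc0 : c i0 ≠ 0 := hi0.2
    have hs0 : 0 < s i0 := hcpos i0 hc0
    have hmin' : ∀ i, c i ≠ 0 → s i0 ≤ s i := by
      intro i hi
      exact hi0min i (by rw [Finset.mem_filter]; exact ⟨Finset.mem_univ _, hi⟩)
    set x : V := ∑ i, c i • (T ^ (s i - s i0)) (b i) with hx
    let b' := Function.update b i0 x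
    let s' := Function.update s i0 (s i0 - 1)
    have hb'0 : b' i0 = x := by simp [b']
    have hb'ne : ∀ i, i ≠ i0 → b' i = b i := fun i hi => by simp [b', hi]
    apply hmin (∑ i, s' i)
    · rw [← hsum]
      apply Finset.sum_lt_sum
      · intro i _
        by_cases hi : i = i0
        · subst hi; simp [s']
        · simp [s', hi]
      · refine ⟨i0, Finset.mem_univ _, ?_⟩
        simp only [s', Function.update_self]
        omega
    · refine ⟨s', b', ?_, ?_, rfl⟩
      · intro i
        by_cases hi : i = i0
        · subst hi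
          rw [hb'0]
          simp only [s', Function.update_self]
          rw [hx, map_sum, ← hc]
          refine Finset.sum_congr rfl fun j _ => ?_
          rw [map_smul, ← Module.End.mul_apply, ← pow_add]
          by_cases hj : c j = 0
          · rw [hj, zero_smul, zero_smul]
          · have := hmin' j hj
            congr 3
            omega
        · rw [hb'ne i hi]
          simp only [s', Function.update_of_ne hi]
          exact hzero i
      · rw [eq_top_iff, ← hspan]
        apply orb_le
        intro i
        by_cases hi : i = i0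
        · subst hi
          have h1 : c i • b i = x - ∑ j ∈ Finset.univ.erase i, c j • (T ^ (s j - s i)) (b j) := by
            rw [hx, ← Finset.add_sum_erase _ _ (Finset.mem_univ i)]
            simp
          have h2 : c i • b i ∈ orb T b' := by
            rw [h1]
            apply sub_mem
            · rw [← hb'0]; exact mem_orb T b' i
            · apply sum_mem
              intro j hj
              apply smul_mem
              rw [← hb'ne j (Finset.ne_of_mem_erase hj)]
              exact pow_mem_orb T b' j _
          exact (smul_mem_iff _ hc0).mp h2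
        · rw [← hb'ne i hi]
          exact mem_orb T b' i
  have hle : ∑ i, s i ≤ finrank D V := by
    have := (li_of_last T s b hzero hli).fintype_card_le_finrank
    simpa using this
  exact ⟨s, b, hzero, hspan, le_antisymm hle (card_ge T s b hzero hspan)⟩

/-- ranks of powers in terms of a frame -/
theorem IsFrame.finrank_range {T : V →ₗ[D] V} {s : ι → ℕ} {b : ι → V} (h : IsFrame T s b)
    (j : ℕ) : finrank D (LinearMap.range (T ^ j)) = ∑ i, (s i - j) := by
  classical
  have hzero' : ∀ i, (T ^ (s i - j)) ((T ^ j) (b i)) = 0 := by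
    intro i
    rw [← Module.End.mul_apply, ← pow_add]
    exact pow_eq_zero_of_le (h.zero i) (by omega)
  have hrange : LinearMap.range (T ^ j) =
      Submodule.span D (Set.range fun x : (Σ i, Fin (s i - j)) => (T ^ (x.2 : ℕ)) ((T ^ j) (b x.1))) := by
    rw [← orb_eq_span_fin T (fun i => (T ^ j) (b i)) (fun i => s i - j) hzero']
    apply le_antisymm
    · rw [LinearMap.range_eq_map, ← h.span, orb, map_span, span_le]
      rintro _ ⟨_, ⟨x, rfl⟩, rfl⟩
      have : (T ^ j) ((T ^ x.2) (b x.1)) = (T ^ x.2) ((T ^ j) (b x.1)) := by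
        rw [← Module.End.mul_apply, ← Module.End.mul_apply, ← pow_add, ← pow_add, add_comm]
      simp only [SetLike.mem_coe]
      rw [this]
      exact pow_mem_orb T (fun i => (T ^ j) (b i)) x.1 x.2
    · rw [orb, span_le]
      rintro _ ⟨x, rfl⟩
      refine ⟨(T ^ x.2) (b x.1), ?_⟩
      simp only
      rw [← Module.End.mul_apply, ← Module.End.mul_apply, ← pow_add, ← pow_add, add_comm]
  rw [hrange]
  have hli : LinearIndependent D
      (fun x : (Σ i, Fin (s i - j)) => (T ^ (x.2 : ℕ)) ((T ^ j) (b x.1))) := by
    have := h.li.comp (fun x : (Σ i, Fin (s i - j)) =>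
      (⟨x.1, ⟨(x.2 : ℕ) + j, by have := x.2.2; omega⟩⟩ : (Σ i, Fin (s i)))) (by
        rintro ⟨i, y⟩ ⟨i', y'⟩ hxy
        simp only [Sigma.mk.injEq] at hxy
        obtain ⟨rfl, h2⟩ := hxy
        simp only [heq_eq_eq, Fin.mk.injEq, add_left_inj] at h2
        rw [Fin.ext h2])
    convert this using 2 with x
    simp only [Function.comp_apply]
    rw [← Module.End.mul_apply, ← pow_add]
  rw [finrank_span_eq_card hli]
  simp

end frame

end Pool.Agent.Helper23_QRoots
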