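import Mathlib
import Pool.Agent.Helper23_QRoots.Frames

set_option autoImplicit false

namespace Pool.Agent.Helper23_QRoots

open Submodule Module

variable {D V S : Type*} [DivisionRing D] [AddCommGroup V] [Module D V] [FiniteDimensional D V]
  [CommRing S] [Algebra S D] [Module S V] [IsScalarTower S D V] {ι : Type*} [Fintype ι]
  [DecidableEq ι]

omit [FiniteDimensional D V] in
theorem move {T : V →ₗ[D] V} {s : ι → ℕ} {b : ι → V} (h : IsFrame T s b) {p q : ℕ} {u v : ι}
    (huv : u ≠ v) (h1 : q * p < s v) (h2 : s v ≤ s u) (h3 : s u < (q + 1) * p) :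
    ∃ N : V →ₗ[D] V, (∀ t : S, (T + t • N) ^ p = T ^ p) ∧
      ∃ b' : ι → V, IsFrame (T + N)
        (Function.update (Function.update s u (s u + 1)) v (s v - 1)) b' := by
  classical
  have hcomm : SMulCommClass D S V := IsScalarTower.to_smulCommClass'
  obtain ⟨α, hα⟩ : ∃ α, s u = q * p + α := ⟨s u - q * p, by omega⟩
  obtain ⟨β, hβ⟩ : ∃ β, s v = q * p + β := ⟨s v - q * p, by omega⟩
  have hαp : α < p := by rw [hα] at h3; rw [add_mul, one_mul] at h3; omega
  have hβ1 : 1 ≤ β := by omega
  have hβα : β ≤ α := by omega
  have hp : 0 < p := by omega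
  let g : ℕ → V := fun j => if j % p = α then (T ^ ((j - α) + (β - 1))) (b v) else 0
  have g0 : g 0 = 0 := by
    simp only [g]
    rw [if_neg]
    rw [Nat.zero_mod]; omega
  have gp : ∀ j, g (j + p) = (T ^ p) (g j) := by
    intro j
    simp only [g, Nat.add_mod_right]
    by_cases hj : j % p = α
    · rw [if_pos hj, if_pos hj, ← Module.End.mul_apply, ← pow_add]
      have : α ≤ j := by rw [← hj]; exact Nat.mod_le _ _
      congr 2
      omega
    · rw [if_neg hj, if_neg hj, map_zero]
  have gbig : ∀ j, s u < j → g j = 0 := by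
    intro j hj
    simp only [g]
    by_cases hjm : j % p = α
    · rw [if_pos hjm]
      apply pow_eq_zero_of_le (h.zero v)
      -- j ≡ α mod p, j > q p + α so j ≥ (q+1) p + α
      have hdiv : j = p * (j / p) + α := by
        have := Nat.div_add_mod j p
        rw [hjm] at this; exact this.symm
      have hq1 : q + 1 ≤ j / p := by
        by_contra hlt
        have h4 : j / p ≤ q := by omega
        have h5 : p * (j / p) ≤ p * q := Nat.mul_le_mul_left p h4
        rw [mul_comm p q] at h5
        omega
      have h6 : p * (q + 1) ≤ p * (j / p) := Nat.mul_le_mul_left p hq1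
      have h7 : p * (q + 1) = q * p + p := by ring
      omega
    · rw [if_neg hjm]
  have ga : g (s u) = (T ^ (s v - 1)) (b v) := by
    simp only [g]
    rw [if_pos]
    · congr 2
      omega
    · rw [hα, Nat.mul_add_mod', Nat.mod_eq_of_lt hαp]
  have Tga : T (g (s u)) = 0 := by
    rw [ga, ← Module.End.mul_apply, ← pow_succ']
    exact pow_eq_zero_of_le (h.zero v) (by omega)
  let B : Basis (Σ i, Fin (s i)) D V := Basis.mk h.li (by
    rw [← orb_eq_span_fin T b s h.zero, h.span])
  have hB : ∀ x, B x = (T ^ (x.2 : ℕ)) (b x.1) := fun x => by simp [B]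
  let N : V →ₗ[D] V := B.constr ℕ (fun x =>
    if x.1 = u then g ((x.2 : ℕ) + 1) - T (g (x.2 : ℕ)) else 0)
  have hNne : ∀ i, i ≠ u → ∀ j, N ((T ^ j) (b i)) = 0 := by
    intro i hi j
    by_cases hj : j < s i
    · have : (T ^ j) (b i) = B ⟨i, ⟨j, hj⟩⟩ := by rw [hB]
      rw [this, Basis.constr_basis, if_neg hi]
    · rw [pow_eq_zero_of_le (h.zero i) (not_lt.mp hj), map_zero]
  have hNu : ∀ j, N ((T ^ j) (b u)) = g (j + 1) - T (g j) := by
    intro j
    by_cases hj : j < s u
    · have : (T ^ j) (b u) = B ⟨u, ⟨j, hj⟩⟩ := by rw [hB]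
      rw [this, Basis.constr_basis, if_pos rfl]
    · rw [pow_eq_zero_of_le (h.zero u) (not_lt.mp hj), map_zero, gbig (j + 1) (by omega)]
      rcases Nat.lt_or_ge (s u) j with h' | h'
      · rw [gbig j h', map_zero, sub_zero]
      · have : j = s u := by omega
        rw [this, Tga, sub_zero]
  have hA2 : ∀ (t : S) i, i ≠ u → ∀ j, (T + t • N) ((T ^ j) (b i)) = (T ^ (j + 1)) (b i) := by
    intro t i hi j
    rw [LinearMap.add_apply, LinearMap.smul_apply, hNne i hi j, smul_zero, add_zero, pow_succ',
      Module.End.mul_apply]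
  have hA2g : ∀ (t : S) j, (T + t • N) (g j) = T (g j) := by
    intro t j
    simp only [g]
    split_ifs with hj
    · rw [hA2 t v huv.symm, pow_succ', Module.End.mul_apply]
    · simp
  have hA1 : ∀ (t : S) i, i ≠ u → ∀ j, ((T + t • N) ^ j) (b i) = (T ^ j) (b i) := by
    intro t i hi j
    induction j with
    | zero => simp
    | succ j ih => rw [pow_succ', Module.End.mul_apply, ih, hA2 t i hi]
  have hA3 : ∀ (t : S) j, ((T + t • N) ^ j) (b u) = (T ^ j) (b u) + t • g j := by
    intro t j
    induction j with
    | zero => simp [g0]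
    | succ j ih =>
      rw [pow_succ', Module.End.mul_apply, ih, map_add, LinearMap.map_smul_of_tower, hA2g,
        LinearMap.add_apply, LinearMap.smul_apply, hNu, pow_succ' T, Module.End.mul_apply,
        smul_sub]
      abel
  have hgorb : ∀ (t : S) j, g j ∈ orb (T + t • N) b := by
    intro t j
    simp only [g]
    split_ifs with hj
    · rw [← hA1 t v huv.symm]
      exact pow_mem_orb _ _ _ _
    · exact zero_mem _
  have hspan : ∀ t : S, orb (T + t • N) b = ⊤ := by
    intro t
    rw [eq_top_iff, ← h.span]
    conv_lhs => unfold orb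
    rw [span_le]
    rintro _ ⟨⟨i, j⟩, rfl⟩
    simp only [SetLike.mem_coe]
    by_cases hi : i = u
    · subst hi
      have : (T ^ j) (b i) = ((T + t • N) ^ j) (b i) - t • g j := by
        rw [hA3]; abel
      rw [this]
      apply sub_mem
      · exact pow_mem_orb _ _ _ _
      · exact Submodule.smul_of_tower_mem _ t (hgorb t j)
    · rw [← hA1 t i hi]
      exact pow_mem_orb _ _ _ _
  refine ⟨N, ?_, ?_⟩
  · intro t
    apply LinearMap.ext_on (show span D (Set.range fun x : ι × ℕ =>
      ((T + t • N) ^ x.2) (b x.1)) = ⊤ from hspan t)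
    rintro _ ⟨⟨i, j⟩, rfl⟩
    simp only
    rw [← Module.End.mul_apply, ← pow_add]
    by_cases hi : i = u
    · subst hi
      rw [hA3, hA3, map_add, LinearMap.map_smul_of_tower, add_comm p j, gp, add_comm j p, pow_add,
        Module.End.mul_apply]
    · rw [hA1 t i hi, hA1 t i hi, pow_add, Module.End.mul_apply]
  · have hA1' : ∀ i, i ≠ u → ∀ j, ((T + N) ^ j) (b i) = (T ^ j) (b i) := by
      intro i hi j
      have := hA1 (1 : S) i hi j
      rwa [one_smul] at this
    have hA3' : ∀ j, ((T + N) ^ j) (b u) = (T ^ j) (b u) + g j := by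
      intro j
      have := hA3 (1 : S) j
      rwa [one_smul, one_smul] at this
    have hspan' : orb (T + N) b = ⊤ := by
      have := hspan (1 : S)
      rwa [one_smul] at this
    refine ⟨Function.update b v (b v - ((T + N) ^ (s u - s v + 1)) (b u)), ?_, ?_, ?_⟩
    · intro i
      by_cases hiv : i = v
      · subst hiv
        rw [Function.update_self, Function.update_self, map_sub, hA1' i huv.symm,
          ← Module.End.mul_apply, ← pow_add]
        have : s i - 1 + (s u - s i + 1) = s u := by omega
        rw [this, hA3', h.zero u, ga, zero_add, sub_self]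
      · rw [Function.update_of_ne hiv, Function.update_of_ne hiv]
        by_cases hiu : i = u
        · subst hiu
          rw [Function.update_self, hA3', gbig _ (by omega), add_zero]
          exact pow_eq_zero_of_le (h.zero i) (by omega)
        · rw [Function.update_of_ne hiu, hA1' i hiu]
          exact h.zero i
    · rw [eq_top_iff, ← hspan']
      apply orb_le
      intro i
      set b' := Function.update b v (b v - ((T + N) ^ (s u - s v + 1)) (b u)) with hb'
      have hb'u : b' u = b u := by rw [hb', Function.update_of_ne huv]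
      by_cases hiv : i = v
      · subst hiv
        have h4 : b i = b' i + ((T + N) ^ (s u - s i + 1)) (b' u) := by
          rw [hb'u, hb', Function.update_self]; abel
        rw [h4]
        exact add_mem (mem_orb _ _ _) (pow_mem_orb _ _ _ _)
      · have : b i = b' i := by rw [hb', Function.update_of_ne hiv]
        rw [this]
        exact mem_orb _ _ _
    · rw [← h.card]
      rw [Finset.sum_update_of_mem (Finset.mem_univ v), Finset.sdiff_singleton_eq_erase]
      have hu : u ∈ Finset.univ.erase v := Finset.mem_erase.mpr ⟨huv, Finset.mem_univ _⟩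
      rw [Finset.sum_update_of_mem hu, Finset.sdiff_singleton_eq_erase]
      rw [← Finset.add_sum_erase _ s (Finset.mem_univ v), ← Finset.add_sum_erase _ s hu]
      omega

end Pool.Agent.Helper23_QRoots
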