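import Mathlib

set_option autoImplicit false

namespace Pool.Agent.Helper23_QRoots

variable {ι : Type*} [Fintype ι]

/-- at most one chain length in each open window `(q p, (q+1) p)` -/
def Canon (p : ℕ) (s : ι → ℕ) : Prop :=
  ∀ u v : ι, u ≠ v → ∀ q : ℕ, ¬ (q * p < s v ∧ s v ≤ s u ∧ s u < (q + 1) * p)

theorem canon_count {p : ℕ} (hp : 0 < p) {s : ι → ℕ} (hs : Canon p s) (q ρ : ℕ) (hρ1 : 1 ≤ ρ)
    (hρp : ρ ≤ p) :
    p * (Finset.univ.filter (fun i => q * p + ρ ≤ s i)).card ≤
      ∑ i, min (s i - q * p) p + (p - ρ) ∧
    ∑ i, min (s i - q * p) p ≤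
      p * (Finset.univ.filter (fun i => q * p + ρ ≤ s i)).card + (ρ - 1) := by
  classical
  set P := Finset.univ.filter (fun i => q * p < s i ∧ s i < (q + 1) * p) with hP
  have hPcard : P.card ≤ 1 := by
    rw [Finset.card_le_one]
    intro u hu v hv
    rw [hP, Finset.mem_filter] at hu hv
    by_contra hne
    rcases le_total (s v) (s u) with h | h
    · exact hs u v hne q ⟨hv.2.1, h, hu.2.2⟩
    · exact hs v u (Ne.symm hne) q ⟨hu.2.1, h, hv.2.2⟩
  have hexp : (q + 1) * p = q * p + p := by ring
  constructor
  · have h1 : ∑ i, (if q * p + ρ ≤ s i then p else 0) ≤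
        ∑ i, (min (s i - q * p) p + (if i ∈ P then (p - ρ) else 0)) := by
      apply Finset.sum_le_sum
      intro i _
      by_cases hi : q * p + ρ ≤ s i
      · rw [if_pos hi]
        by_cases hiP : i ∈ P
        · rw [if_pos hiP]
          rw [hP, Finset.mem_filter, hexp] at hiP
          rw [min_eq_left (by omega)]
          omega
        · rw [if_neg hiP]
          rw [hP, Finset.mem_filter, hexp] at hiP
          have : q * p + p ≤ s i := by
            by_contra hlt
            exact hiP ⟨Finset.mem_univ _, by omega, by omega⟩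
          rw [min_eq_right (by omega)]
          omega
      · rw [if_neg hi]; exact Nat.zero_le _
    rw [Finset.sum_add_distrib, ← Finset.sum_filter, ← Finset.sum_filter, Finset.sum_const,
      Finset.sum_const, smul_eq_mul, smul_eq_mul] at h1
    have h2 : (Finset.univ.filter (fun i => i ∈ P)).card ≤ 1 := by
      have : Finset.univ.filter (fun i => i ∈ P) = P := by ext i; simp
      rw [this]; exact hPcard
    calc p * (Finset.univ.filter (fun i => q * p + ρ ≤ s i)).card
        = (Finset.univ.filter (fun i => q * p + ρ ≤ s i)).card * p := mul_comm _ _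
      _ ≤ _ := h1
      _ ≤ ∑ i, min (s i - q * p) p + 1 * (p - ρ) := by
          apply Nat.add_le_add_left
          exact Nat.mul_le_mul_right _ h2
      _ = _ := by rw [one_mul]
  · have h1 : ∑ i, min (s i - q * p) p ≤
        ∑ i, ((if q * p + ρ ≤ s i then p else 0) + (if i ∈ P then (ρ - 1) else 0)) := by
      apply Finset.sum_le_sum
      intro i _
      by_cases hi : q * p + ρ ≤ s i
      · rw [if_pos hi]
        exact (min_le_right _ _).trans (Nat.le_add_right _ _)
      · rw [if_neg hi, zero_add]
        by_cases hiP : i ∈ P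
        · rw [if_pos hiP]
          exact (min_le_left _ _).trans (by omega)
        · rw [if_neg hiP]
          rw [hP, Finset.mem_filter, hexp] at hiP
          have : s i ≤ q * p := by
            by_contra hlt
            exact hiP ⟨Finset.mem_univ _, by omega, by omega⟩
          exact (min_le_left _ _).trans (by omega)
    rw [Finset.sum_add_distrib, ← Finset.sum_filter, ← Finset.sum_filter, Finset.sum_const,
      Finset.sum_const, smul_eq_mul, smul_eq_mul] at h1
    have h2 : (Finset.univ.filter (fun i => i ∈ P)).card ≤ 1 := by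
      have : Finset.univ.filter (fun i => i ∈ P) = P := by ext i; simp
      rw [this]; exact hPcard
    calc ∑ i, min (s i - q * p) p
        ≤ _ := h1
      _ ≤ (Finset.univ.filter (fun i => q * p + ρ ≤ s i)).card * p + 1 * (ρ - 1) := by
          apply Nat.add_le_add_left
          exact Nat.mul_le_mul_right _ h2
      _ = _ := by rw [one_mul, mul_comm]

/-- canonical sizes are determined by the truncated sums -/
theorem canon_unique {p : ℕ} (hp : 0 < p) {s s' : ι → ℕ} (hs : Canon p s) (hs' : Canon p s')
    (hsum : ∀ q : ℕ, ∑ i, (s i - q * p) = ∑ i, (s' i - q * p)) :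
    ∃ σ : Equiv.Perm ι, ∀ i, s (σ i) = s' i := by
  classical
  have hN : ∀ q : ℕ, ∑ i, min (s i - q * p) p = ∑ i, min (s' i - q * p) p := by
    intro q
    have hpt : ∀ x : ℕ, x - q * p = min (x - q * p) p + (x - (q + 1) * p) := by
      intro x
      have : (q + 1) * p = q * p + p := by ring
      rw [this]
      omega
    have h1 := hsum q
    have h2 := hsum (q + 1)
    rw [Finset.sum_congr rfl (fun i _ => hpt (s i)), Finset.sum_congr rfl (fun i _ => hpt (s' i)),
      Finset.sum_add_distrib, Finset.sum_add_distrib] at h1
    omega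
  have hH : ∀ m : ℕ, (Finset.univ.filter (fun i => m ≤ s i)).card =
      (Finset.univ.filter (fun i => m ≤ s' i)).card := by
    intro m
    rcases Nat.eq_zero_or_pos m with rfl | hm
    · simp
    set q := (m - 1) / p with hq
    set ρ := m - q * p with hρ
    have hdiv := Nat.div_add_mod (m - 1) p
    have hmod := Nat.mod_lt (m - 1) hp
    rw [← hq, mul_comm] at hdiv
    have hm' : m = q * p + ρ := by omega
    have h1 := canon_count hp hs q ρ (by omega) (by omega)
    have h2 := canon_count hp hs' q ρ (by omega) (by omega)
    rw [← hm'] at h1 h2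
    rw [← hN q] at h2
    set h := (Finset.univ.filter (fun i => m ≤ s i)).card
    set h' := (Finset.univ.filter (fun i => m ≤ s' i)).card
    have h3 : p * h < p * (h' + 1) := by rw [mul_add, mul_one]; omega
    have h4 : p * h' < p * (h + 1) := by rw [mul_add, mul_one]; omega
    have h5 := Nat.lt_of_mul_lt_mul_left h3
    have h6 := Nat.lt_of_mul_lt_mul_left h4
    omega
  have hfib : ∀ m : ℕ, Fintype.card {i // s' i = m} = Fintype.card {i // s i = m} := by
    intro m
    rw [Fintype.card_subtype, Fintype.card_subtype]
    have hsplit : ∀ t : ι → ℕ, (Finset.univ.filter (fun i => m ≤ t i)).card =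
        (Finset.univ.filter (fun i => t i = m)).card +
        (Finset.univ.filter (fun i => m + 1 ≤ t i)).card := by
      intro t
      rw [← Finset.card_union_of_disjoint]
      · congr 1
        ext i
        simp only [Finset.mem_filter, Finset.mem_univ, true_and, Finset.mem_union]
        omega
      · rw [Finset.disjoint_filter]
        intro i _ h
        omega
    have h1 := hsplit s
    have h2 := hsplit s'
    have h3 := hH m
    have h4 := hH (m + 1)
    omega
  let e : ∀ m : ℕ, {i // s' i = m} ≃ {i // s i = m} := fun m => Fintype.equivOfCardEq (hfib m)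
  refine ⟨(Equiv.sigmaFiberEquiv s').symm.trans ((Equiv.sigmaCongrRight e).trans
    (Equiv.sigmaFiberEquiv s)), fun i => ?_⟩
  simp only [Equiv.trans_apply]
  have : ((Equiv.sigmaFiberEquiv s').symm i) = ⟨s' i, ⟨i, rfl⟩⟩ := rfl
  rw [this]
  simp only [Equiv.sigmaCongrRight_apply, Sigma.map]
  exact (e (s' i) ⟨i, rfl⟩).2

end Pool.Agent.Helper23_QRoots
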