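import Mathlib

set_option autoImplicit false

namespace Pool.Agent.Helper23_QRoots

open scoped Quaternion

section compl

variable {V : Type*} [AddCommGroup V] [Module ℍ[ℝ] V] [Module ℝ V] [IsScalarTower ℝ ℍ[ℝ] V]
  [TopologicalSpace V] [ContinuousAdd V] [ContinuousSMul ℝ V]

/-- the quaternion `i` -/
def qi : ℍ[ℝ] := ⟨0, 1, 0, 0⟩

theorem qi_re : qi.re = 0 := rfl
theorem qi_imI : qi.imI = 1 := rfl
theorem qi_imJ : qi.imJ = 0 := rfl
theorem qi_imK : qi.imK = 0 := rfl

omit [AddCommGroup V] [Module ℍ[ℝ] V] [Module ℝ V] [IsScalarTower ℝ ℍ[ℝ] V]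
  [TopologicalSpace V] [ContinuousAdd V] [ContinuousSMul ℝ V] in
theorem qi_mul_qi : qi * qi = -1 := by
  ext <;> simp [qi_re, qi_imI, qi_imJ, qi_imK]

theorem joined_qi (K Q : Submodule ℍ[ℝ] V) {x : V} (hx : x ∈ K) (hxQ : x ∉ Q) :
    JoinedIn {v | v ∈ K ∧ v ∉ Q} x (qi • x) := by
  apply JoinedIn.of_segment_subset
  rintro _ ⟨a, b, ha, hb, hab, rfl⟩
  have h1 : a • x + b • qi • x = ((a : ℍ[ℝ]) + (b : ℍ[ℝ]) * qi) • x := by
    rw [add_smul, mul_smul]
    congr 1
    · rw [← smul_one_smul ℍ[ℝ] a x]
      congr 1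
      rw [← Quaternion.coe_one, Quaternion.smul_coe, mul_one]
    · rw [← smul_one_smul ℍ[ℝ] b (qi • x)]
      congr 1
      rw [← Quaternion.coe_one, Quaternion.smul_coe, mul_one]
  rw [h1]
  have hne : (a : ℍ[ℝ]) + (b : ℍ[ℝ]) * qi ≠ 0 := by
    intro h0
    have hre := congrArg (fun z : ℍ[ℝ] => z.re) h0
    have him := congrArg (fun z : ℍ[ℝ] => z.imI) h0
    simp [qi_re, qi_imI, qi_imJ, qi_imK] at hre him
    linarith
  exact ⟨K.smul_mem _ hx, fun h => hxQ ((Submodule.smul_mem_iff _ hne).mp h)⟩

theorem compl_joined (K Q : Submodule ℍ[ℝ] V) {x y : V} (hx : x ∈ K) (hxQ : x ∉ Q)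
    (hy : y ∈ K) (hyQ : y ∉ Q) : JoinedIn {v | v ∈ K ∧ v ∉ Q} x y := by
  by_cases hseg : segment ℝ x y ⊆ {v | v ∈ K ∧ v ∉ Q}
  · exact JoinedIn.of_segment_subset hseg
  · have smulK : ∀ (L : Submodule ℍ[ℝ] V) (r : ℝ) {v : V}, v ∈ L → r • v ∈ L :=
      fun L r v hv => Submodule.smul_of_tower_mem L r hv
    rw [Set.not_subset] at hseg
    obtain ⟨z, ⟨a, b, ha, hb, hab, rfl⟩, hz⟩ := hseg
    have hzQ : a • x + b • y ∈ Q := by
      by_contra h
      exact hz ⟨add_mem (smulK K a hx) (smulK K b hy), h⟩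
    have hneg : qi • qi • x = -x := by
      rw [smul_smul, qi_mul_qi, neg_smul, one_smul]
    have hqix : qi • x ∈ K := K.smul_mem _ hx
    have hqne : qi ≠ 0 := by
      intro h
      have := congrArg (fun z : ℍ[ℝ] => z.imI) h
      simp [qi_imI] at this
    have hqixQ : qi • x ∉ Q := fun h => hxQ ((Submodule.smul_mem_iff _ hqne).mp h)
    have h1 : JoinedIn {v | v ∈ K ∧ v ∉ Q} x (-x) := by
      rw [← hneg]
      exact (joined_qi K Q hx hxQ).trans (joined_qi K Q hqix hqixQ)
    refine h1.trans (JoinedIn.of_segment_subset ?_)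
    rintro _ ⟨c, d, hc, hd, hcd, rfl⟩
    refine ⟨add_mem (smulK K c (neg_mem hx)) (smulK K d hy), fun hQ => ?_⟩
    -- combine
    have hcomb : (d * a + b * c) • x ∈ Q := by
      have h2 : d • (a • x + b • y) - b • (c • -x + d • y) ∈ Q :=
        sub_mem (smulK Q d hzQ) (smulK Q b hQ)
      have h3 : d • (a • x + b • y) - b • (c • -x + d • y) = (d * a + b * c) • x := by
        simp only [smul_add, smul_neg, smul_smul, add_smul]
        rw [mul_comm b d]
        abel
      rwa [h3] at h2
    have hcoef : d * a + b * c = 0 := by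
      by_contra hne
      apply hxQ
      have h4 := smulK Q (d * a + b * c)⁻¹ hcomb
      rwa [smul_smul, inv_mul_cancel₀ hne, one_smul] at h4
    have hda : d * a = 0 := by nlinarith [mul_nonneg hd ha, mul_nonneg hb hc]
    have hbc : b * c = 0 := by nlinarith [mul_nonneg hd ha, mul_nonneg hb hc]
    rcases mul_eq_zero.mp hda with h5 | h5
    · -- d = 0, c = 1, so b = 0, a = 1
      have hc1 : c = 1 := by linarith
      have hb0 : b = 0 := by
        rcases mul_eq_zero.mp hbc with h6 | h6
        · exact h6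
        · rw [h6] at hc1; norm_num at hc1
      rw [hb0, zero_smul, add_zero, show a = 1 by linarith, one_smul] at hzQ
      exact hxQ hzQ
    · have hb1 : b = 1 := by linarith
      have hc0 : c = 0 := by
        rcases mul_eq_zero.mp hbc with h6 | h6
        · rw [h6] at hb1; norm_num at hb1
        · exact h6
      rw [h5, hb1, zero_smul, zero_add, one_smul] at hzQ
      exact hyQ hzQ

end compl

section exchange

variable {V W : Type*} [AddCommGroup V] [Module ℍ[ℝ] V] [Module ℝ V] [IsScalarTower ℝ ℍ[ℝ] V]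
  [TopologicalSpace V] [ContinuousAdd V] [ContinuousSMul ℝ V]
  [AddCommGroup W] [Module ℍ[ℝ] W]
  {κ : Type*} [Fintype κ]

/-- the set of families with `c k ∈ K k` and `τ k (c k)` linearly independent -/
def indepSet (K : κ → Submodule ℍ[ℝ] V) (τ : κ → V →ₗ[ℍ[ℝ]] W) : Set (κ → V) :=
  {c | (∀ k, c k ∈ K k) ∧ LinearIndependent ℍ[ℝ] (fun k => τ k (c k))}

omit [Module ℝ V] [IsScalarTower ℝ ℍ[ℝ] V] [TopologicalSpace V] [ContinuousAdd V]
  [ContinuousSMul ℝ V] [Fintype κ] in
/-- the span of the images of the other vectors -/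
noncomputable def others (τ : κ → V →ₗ[ℍ[ℝ]] W) (c : κ → V) (k0 : κ) : Submodule ℍ[ℝ] V :=
  (Submodule.span ℍ[ℝ] ((fun k => τ k (c k)) '' (Set.univ \ {k0}))).comap (τ k0)

theorem notMem_others {K : κ → Submodule ℍ[ℝ] V} {τ : κ → V →ₗ[ℍ[ℝ]] W} {c : κ → V}
    (hc : c ∈ indepSet K τ) (k0 : κ) : c k0 ∉ others τ c k0 := by
  intro h
  exact linearIndependent_iff_notMem_span.mp hc.2 k0 h

theorem update_mem [DecidableEq κ] {K : κ → Submodule ℍ[ℝ] V} {τ : κ → V →ₗ[ℍ[ℝ]] W} {c : κ → V}
    (hc : c ∈ indepSet K τ) (k0 : κ) {v : V} (hv : v ∈ K k0) (hvo : v ∉ others τ c k0) :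
    Function.update c k0 v ∈ indepSet K τ := by
  refine ⟨fun k => ?_, ?_⟩
  · by_cases hk : k = k0
    · subst hk; rw [Function.update_self]; exact hv
    · rw [Function.update_of_ne hk]; exact hc.1 k
  · rw [Fintype.linearIndependent_iff]
    intro g hg
    have hsplit : ∑ k, g k • τ k (Function.update c k0 v k) =
        g k0 • τ k0 v + ∑ k ∈ Finset.univ.erase k0, g k • τ k (c k) := by
      rw [← Finset.add_sum_erase _ _ (Finset.mem_univ k0), Function.update_self]
      congr 1
      refine Finset.sum_congr rfl fun k hk => ?_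
      rw [Function.update_of_ne (Finset.ne_of_mem_erase hk)]
    rw [hsplit] at hg
    have hspan : ∑ k ∈ Finset.univ.erase k0, g k • τ k (c k) ∈
        Submodule.span ℍ[ℝ] ((fun k => τ k (c k)) '' (Set.univ \ {k0})) := by
      apply Submodule.sum_mem
      intro k hk
      apply Submodule.smul_mem
      exact Submodule.subset_span ⟨k, ⟨Set.mem_univ _, Finset.ne_of_mem_erase hk⟩, rfl⟩
    have hg0 : g k0 = 0 := by
      by_contra hne
      apply hvo
      have h1 : g k0 • τ k0 v ∈
          Submodule.span ℍ[ℝ] ((fun k => τ k (c k)) '' (Set.univ \ {k0})) := by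
        rw [eq_neg_of_add_eq_zero_left hg]
        exact Submodule.neg_mem _ hspan
      rw [others, Submodule.mem_comap]
      exact (Submodule.smul_mem_iff _ hne).mp h1
    rw [hg0, zero_smul, zero_add] at hg
    have hli := Fintype.linearIndependent_iff.mp hc.2 (fun k => if k = k0 then 0 else g k) (by
      rw [← hg, ← Finset.add_sum_erase _ _ (Finset.mem_univ k0)]
      simp only [if_true, zero_smul, zero_add]
      refine Finset.sum_congr rfl fun k hk => ?_
      rw [if_neg (Finset.ne_of_mem_erase hk)])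
    intro k
    by_cases hk : k = k0
    · rw [hk, hg0]
    · have := hli k
      rwa [if_neg hk] at this

theorem joined_update [DecidableEq κ] {K : κ → Submodule ℍ[ℝ] V} {τ : κ → V →ₗ[ℍ[ℝ]] W}
    {c : κ → V} (hc : c ∈ indepSet K τ) (k0 : κ) {z : V} (hz : z ∈ K k0)
    (hzo : z ∉ others τ c k0) : JoinedIn (indepSet K τ) c (Function.update c k0 z) := by
  have h := compl_joined (K k0) (others τ c k0) (hc.1 k0) (notMem_others hc k0) hz hzo
  have hcont : Continuous (fun v : V => Function.update c k0 v) :=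
    continuous_const.update k0 continuous_id
  have h2 := h.map_continuousOn (f := fun v => Function.update c k0 v) hcont.continuousOn
  rw [Function.update_eq_self] at h2
  exact h2.mono (by
    rintro _ ⟨v, ⟨hv1, hv2⟩, rfl⟩
    exact update_mem hc k0 hv1 hv2)

theorem indepSet_joined (K : κ → Submodule ℍ[ℝ] V) (τ : κ → V →ₗ[ℍ[ℝ]] W) {c c' : κ → V}
    (hc : c ∈ indepSet K τ) (hc' : c' ∈ indepSet K τ) : JoinedIn (indepSet K τ) c c' := by
  classical
  have key : ∀ (F : Finset κ) (c c' : κ → V), c ∈ indepSet K τ → c' ∈ indepSet K τ →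
      (∀ k, k ∉ F → c k = c' k) → JoinedIn (indepSet K τ) c c' := by
    intro F
    induction F using Finset.induction_on with
    | empty =>
      intro c c' hc hc' h
      have : c = c' := funext fun k => h k (Finset.notMem_empty k)
      subst this
      exact JoinedIn.refl hc
    | insert k0 F hk0 ih =>
      intro c c' hc hc' h
      have hex : ∃ z ∈ K k0, z ∉ others τ c k0 ∧ z ∉ others τ c' k0 := by
        by_cases h1 : c k0 ∉ others τ c' k0
        · exact ⟨c k0, hc.1 k0, notMem_others hc k0, h1⟩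
        by_cases h2 : c' k0 ∉ others τ c k0
        · exact ⟨c' k0, hc'.1 k0, h2, notMem_others hc' k0⟩
        push Not at h1 h2
        refine ⟨c k0 + c' k0, add_mem (hc.1 k0) (hc'.1 k0), ?_, ?_⟩
        · intro h3
          have := sub_mem h3 h2
          rw [add_sub_cancel_right] at this
          exact notMem_others hc k0 this
        · intro h3
          have := sub_mem h3 h1
          rw [add_sub_cancel_left] at this
          exact notMem_others hc' k0 this
      obtain ⟨z, hz, hz1, hz2⟩ := hex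
      have j1 := joined_update hc k0 hz hz1
      have j2 := joined_update hc' k0 hz hz2
      have j3 := ih (Function.update c k0 z) (Function.update c' k0 z)
        (update_mem hc k0 hz hz1) (update_mem hc' k0 hz hz2) (by
          intro k hk
          by_cases hkk : k = k0
          · subst hkk; simp
          · rw [Function.update_of_ne hkk, Function.update_of_ne hkk]
            exact h k (by rw [Finset.mem_insert]; push Not; exact ⟨hkk, hk⟩))
      exact (j1.trans j3).trans j2.symm
  exact key Finset.univ c c' hc hc' (fun k hk => absurd (Finset.mem_univ k) hk)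

end exchange

end Pool.Agent.Helper23_QRoots
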