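import Mathlib
import Pool.Agent.Helper23_QRoots.Frames
import Pool.Agent.Helper23_QRoots.Move
import Pool.Agent.Helper23_QRoots.Sizes
import Pool.Agent.Helper23_QRoots.Topo

set_option autoImplicit false

namespace Pool.Agent.Helper23_QRoots

open scoped Quaternion
open Module

section inv

attribute [local instance] Matrix.linftyOpNormedRing Matrix.linftyOpNormedAlgebra in
theorem inverse_continuousAt_aux (n : ℕ) (M : Matrix (Fin n) (Fin n) ℍ[ℝ]) (hM : IsUnit M) :
    ContinuousAt
      (Ring.inverse : Matrix (Fin n) (Fin n) ℍ[ℝ] → Matrix (Fin n) (Fin n) ℍ[ℝ]) M := by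
  obtain ⟨u, rfl⟩ := hM
  have h1 : FiniteDimensional ℝ (Matrix (Fin n) (Fin n) ℍ[ℝ]) := inferInstance
  have h2 := FiniteDimensional.complete ℝ (Matrix (Fin n) (Fin n) ℍ[ℝ])
  have h3 : HasSummableGeomSeries (Matrix (Fin n) (Fin n) ℍ[ℝ]) := inferInstance
  exact NormedRing.inverse_continuousAt u

theorem inverse_continuousAt (n : ℕ) (M : Matrix (Fin n) (Fin n) ℍ[ℝ]) (hM : IsUnit M) :
    ContinuousAt
      (Ring.inverse : Matrix (Fin n) (Fin n) ℍ[ℝ] → Matrix (Fin n) (Fin n) ℍ[ℝ]) M :=
  inverse_continuousAt_aux n M hM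

end inv

variable {n : ℕ}

/-- abbreviation for the matrix ring -/
abbrev Mat (n : ℕ) := Matrix (Fin n) (Fin n) ℍ[ℝ]

/-- abbreviation for the row vector space -/
abbrev Vec (n : ℕ) := Fin n → ℍ[ℝ]

/-- action on row vectors -/
noncomputable def L (X : Mat n) : Vec n →ₗ[ℍ[ℝ]] Vec n := Matrix.toLinearMapRight' X

theorem L_apply (X : Mat n) (v : Vec n) : L X v = Matrix.vecMul v X := rfl

theorem L_injective : Function.Injective (L (n := n)) :=
  Matrix.toLinearMapRight'.injective

theorem L_mul (X Y : Mat n) : L (X * Y) = L Y * L X := by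
  unfold L
  rw [Matrix.toLinearMapRight'_mul]
  rfl

theorem L_one : L (1 : Mat n) = 1 := by
  unfold L
  rw [Matrix.toLinearMapRight'_one]
  rfl

theorem L_pow (X : Mat n) (k : ℕ) : L (X ^ k) = (L X) ^ k := by
  induction k with
  | zero => rw [pow_zero, pow_zero, L_one]
  | succ k ih => rw [pow_succ, L_mul, ih, pow_succ']

theorem L_add (X Y : Mat n) : L (X + Y) = L X + L Y := map_add _ _ _

theorem L_smul (t : ℝ) (X : Mat n) : L (t • X) = t • L X := by
  ext1 i
  ext1
  simp only [LinearMap.coe_comp, LinearMap.coe_single, Function.comp_apply, LinearMap.smul_apply,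
    L_apply, Matrix.vecMul_smul]

theorem L_surj (N : Vec n →ₗ[ℍ[ℝ]] Vec n) : ∃ X : Mat n, L X = N :=
  ⟨Matrix.toLinearMapRight'.symm N, by unfold L; simp⟩

/-- the set of `p`-th roots -/
def roots (p : ℕ) (A : Mat n) : Set (Mat n) := {X | X ^ p = A}

theorem sum_sq_update {ι : Type*} [Fintype ι] [DecidableEq ι] (s : ι → ℕ) {u v : ι} (huv : u ≠ v)
    (h1 : 0 < s v) (h2 : s v ≤ s u) :
    ∑ i, s i ^ 2 < ∑ i, (Function.update (Function.update s u (s u + 1)) v (s v - 1) i) ^ 2 := by
  have hu : u ∈ Finset.univ.erase v := Finset.mem_erase.mpr ⟨huv, Finset.mem_univ _⟩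
  rw [← Finset.add_sum_erase _ _ (Finset.mem_univ v), ← Finset.add_sum_erase _ _ hu,
    ← Finset.add_sum_erase _ _ (Finset.mem_univ v), ← Finset.add_sum_erase _ _ hu]
  have hrest : ∑ x ∈ (Finset.univ.erase v).erase u,
      (Function.update (Function.update s u (s u + 1)) v (s v - 1) x) ^ 2 =
      ∑ x ∈ (Finset.univ.erase v).erase u, s x ^ 2 := by
    refine Finset.sum_congr rfl fun x hx => ?_
    rw [Finset.mem_erase, Finset.mem_erase] at hx
    rw [Function.update_of_ne hx.2.1, Function.update_of_ne hx.1]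
  rw [hrest, Function.update_self, Function.update_of_ne huv, Function.update_self]
  obtain ⟨a, ha⟩ : ∃ a, s v = a + 1 := ⟨s v - 1, by omega⟩
  rw [ha] at h2 ⊢
  simp only [Nat.add_sub_cancel]
  nlinarith

/-- Step 1: every root can be joined to a root with canonical sizes. -/
theorem exists_canon {p : ℕ} (A : Mat n) :
    ∀ (m : ℕ) (X : Mat n), X ^ p = A → ∀ (s : Fin n → ℕ) (b : Fin n → Vec n),
      IsFrame (L X) s b → n ^ 2 - ∑ i, s i ^ 2 = m →
      ∃ (X' : Mat n) (s' : Fin n → ℕ) (b' : Fin n → Vec n), X' ^ p = A ∧ IsFrame (L X') s' b' ∧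
        Canon p s' ∧ JoinedIn (roots p A) X X' := by
  intro m
  induction m using Nat.strong_induction_on with
  | _ m ih =>
    intro X hX s b hframe hm
    by_cases hcan : Canon p s
    · exact ⟨X, s, b, hX, hframe, hcan, JoinedIn.refl hX⟩
    · unfold Canon at hcan
      push Not at hcan
      obtain ⟨u, v, huv, q, h1, h2, h3⟩ := hcan
      obtain ⟨N, hN, b', hb'⟩ := move (S := ℝ) hframe huv h1 h2 h3
      obtain ⟨N', hN'⟩ := L_surj N
      have hmem : ∀ t : ℝ, X + t • N' ∈ roots p A := by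
        intro t
        show (X + t • N') ^ p = A
        apply L_injective
        rw [L_pow, L_add, L_smul, hN', hN t, ← L_pow, hX]
      have hX1 : (X + N') ^ p = A := by
        have := hmem 1
        rwa [one_smul] at this
      have hjoin : JoinedIn (roots p A) X (X + N') := by
        apply JoinedIn.of_segment_subset
        rintro _ ⟨a, c, ha, hc, hac, rfl⟩
        have : a • X + c • (X + N') = X + c • N' := by
          rw [smul_add, ← add_assoc, ← add_smul, hac, one_smul]
        rw [this]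
        exact hmem c
      have hb'' : IsFrame (L (X + N'))
          (Function.update (Function.update s u (s u + 1)) v (s v - 1)) b' := by
        rw [L_add, hN']; exact hb'
      set s1 := Function.update (Function.update s u (s u + 1)) v (s v - 1) with hs1
      have hlt : ∑ i, s i ^ 2 < ∑ i, s1 i ^ 2 := sum_sq_update s huv (by omega) h2
      have hsum : ∑ i, s1 i = n := by rw [hb''.card]; simp
      have hle : ∑ i, s1 i ^ 2 ≤ n ^ 2 := by
        calc ∑ i, s1 i ^ 2 = ∑ i, s1 i * s1 i := by simp [pow_two]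
          _ ≤ ∑ i, s1 i * ∑ j, s1 j := by
              apply Finset.sum_le_sum
              intro i _
              exact Nat.mul_le_mul_left _
                (Finset.single_le_sum (f := s1) (fun _ _ => Nat.zero_le _) (Finset.mem_univ i))
          _ = (∑ i, s1 i) ^ 2 := by rw [← Finset.sum_mul, pow_two]
          _ = n ^ 2 := by rw [hsum]
      obtain ⟨X', s', b2, hX', hf', hc', hj'⟩ := ih (n ^ 2 - ∑ i, s1 i ^ 2) (by omega) (X + N') hX1
        s1 b' hb'' rfl
      exact ⟨X', s', b2, hX', hf', hc', hjoin.trans hj'⟩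

section same

variable {ι : Type*} (p : ℕ) (s : ι → ℕ)

/-- index set of the generators for `A = X^p`: the pairs `(i, j)` with `j < p`, `j < s i` -/
abbrev Idx := {x : ι × Fin p // (x.2 : ℕ) < s x.1}

/-- chain length for `A` of the generator `(i, j)` -/
def len (k : Idx p s) : ℕ := (s k.1.1 - (k.1.2 : ℕ) + p - 1) / p

theorem lt_len_iff (hp : 0 < p) (k : Idx p s) (m : ℕ) :
    m < len p s k ↔ m * p + (k.1.2 : ℕ) < s k.1.1 := by
  have hk := k.2
  unfold len
  rw [Nat.lt_div_iff_mul_lt hp]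
  constructor <;> intro h <;> omega

theorem len_pos (hp : 0 < p) (k : Idx p s) : 0 < len p s k := by
  rw [lt_len_iff p s hp]
  have := k.2
  omega

variable {p} {s}

/-- extension by zero of a family indexed by `Idx` -/
noncomputable def ext0 (c : Idx p s → Vec n) (i : ι) (j : ℕ) : Vec n :=
  if h : j < p ∧ j < s i then c ⟨(i, ⟨j, h.1⟩), h.2⟩ else 0

/-- the full chains -/
noncomputable def chain (A : Mat n) (c : Idx p s → Vec n) (i : ι) (l : ℕ) : Vec n :=
  ((L A) ^ (l / p)) (ext0 c i (l % p))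

theorem chain_add (hp : 0 < p) (A : Mat n) (c : Idx p s → Vec n) (i : ι) (l : ℕ) :
    chain A c i (l + p) = L A (chain A c i l) := by
  unfold chain
  rw [Nat.add_mod_right, Nat.add_div_right _ hp, pow_succ', Module.End.mul_apply]

theorem chain_eq_zero (hp : 0 < p) (A : Mat n) (c : Idx p s → Vec n)
    (hc : ∀ k, ((L A) ^ (len p s k)) (c k) = 0) (i : ι) (l : ℕ) (hl : s i ≤ l) :
    chain A c i l = 0 := by
  unfold chain ext0
  split_ifs with h
  · apply pow_eq_zero_of_le (hc ⟨(i, ⟨l % p, h.1⟩), h.2⟩)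
    by_contra hlt
    push Not at hlt
    rw [lt_len_iff p s hp] at hlt
    simp only at hlt
    have := Nat.div_add_mod' l p
    omega
  · rw [map_zero]

theorem chain_li [Fintype ι] (hp : 0 < p) (A : Mat n) (c : Idx p s → Vec n)
    (hc : ∀ k, ((L A) ^ (len p s k)) (c k) = 0)
    (hli : LinearIndependent ℍ[ℝ] (fun k : Idx p s => ((L A) ^ (len p s k - 1)) (c k))) :
    LinearIndependent ℍ[ℝ] (fun x : (Σ i, Fin (s i)) => chain A c x.1 (x.2 : ℕ)) := by
  have h1 := li_of_last (L A) (len p s) c hc (hli.comp _ Subtype.val_injective)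
  have hlt : ∀ x : (Σ i, Fin (s i)), (x.2 : ℕ) % p < p ∧ (x.2 : ℕ) % p < s x.1 := fun x =>
    ⟨Nat.mod_lt _ hp, lt_of_le_of_lt (Nat.mod_le _ _) x.2.2⟩
  let φ : (Σ i, Fin (s i)) → (Σ k : Idx p s, Fin (len p s k)) := fun x =>
    ⟨⟨(x.1, ⟨(x.2 : ℕ) % p, (hlt x).1⟩), (hlt x).2⟩, ⟨(x.2 : ℕ) / p, by
      rw [lt_len_iff p s hp]
      simp only
      have := Nat.div_add_mod' (x.2 : ℕ) p
      have := x.2.2
      omega⟩⟩
  have hinj : Function.Injective φ := by
    rintro ⟨i, a⟩ ⟨i', a'⟩ h
    simp only [φ, Sigma.mk.injEq, Subtype.mk.injEq, Prod.mk.injEq, Fin.mk.injEq] at h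
    obtain ⟨⟨h2, h3⟩, h4⟩ := h
    subst h2
    have h5 : (a : ℕ) / p = (a' : ℕ) / p := by
      have hlen : len p s ⟨(i, ⟨(a : ℕ) % p, (hlt ⟨i, a⟩).1⟩), (hlt ⟨i, a⟩).2⟩ =
          len p s ⟨(i, ⟨(a' : ℕ) % p, (hlt ⟨i, a'⟩).1⟩), (hlt ⟨i, a'⟩).2⟩ := by
        congr 4
      have := (Fin.heq_ext_iff hlen).mp h4
      exact this
    have h6 : (a : ℕ) = a' := by
      rw [← Nat.div_add_mod' (a : ℕ) p, ← Nat.div_add_mod' (a' : ℕ) p, h3, h5]
    rw [Fin.ext h6]
  have h2 := h1.comp φ hinj
  have heq : (fun x : (Σ i, Fin (s i)) => chain A c x.1 (x.2 : ℕ)) =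
      (fun x : (Σ k : Idx p s, Fin (len p s k)) => ((L A) ^ (x.2 : ℕ)) (c x.1)) ∘ φ := by
    funext x
    simp only [Function.comp_apply, φ]
    unfold chain ext0
    rw [dif_pos (hlt x)]
  rw [heq]
  exact h2

/-- a matrix with linearly independent rows is invertible -/
theorem isUnit_of_rows (G : Mat n) (hG : LinearIndependent ℍ[ℝ] (fun r => G r)) : IsUnit G := by
  have hinj : Function.Injective (L G) := by
    rw [← LinearMap.ker_eq_bot, LinearMap.ker_eq_bot']
    intro x hx
    rw [L_apply, Matrix.vecMul_eq_sum] at hx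
    exact funext (Fintype.linearIndependent_iff.mp hG x hx)
  have hsurj : Function.Surjective (L G) := LinearMap.injective_iff_surjective.mp hinj
  let e := LinearEquiv.ofBijective (L G) ⟨hinj, hsurj⟩
  obtain ⟨M, hM⟩ := L_surj (e.symm : Vec n →ₗ[ℍ[ℝ]] Vec n)
  have h1 : G * M = 1 := by
    apply L_injective
    rw [L_mul, hM, L_one]
    ext1 i
    ext1
    simp only [Module.End.mul_apply, LinearMap.coe_comp, LinearMap.coe_single,
      Function.comp_apply, LinearEquiv.coe_coe, Module.End.one_apply]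
    exact e.symm_apply_apply _
  have h2 : M * G = 1 := by
    apply L_injective
    rw [L_mul, hM, L_one]
    ext1 i
    ext1
    simp only [Module.End.mul_apply, LinearMap.coe_comp, LinearMap.coe_single,
      Function.comp_apply, LinearEquiv.coe_coe, Module.End.one_apply]
    exact e.apply_symm_apply _
  exact ⟨⟨G, M, h1, h2⟩, rfl⟩

variable (ε : (Σ i, Fin (s i)) ≃ Fin n)

/-- matrix with rows the chains -/
noncomputable def Gm (A : Mat n) (c : Idx p s → Vec n) : Mat n :=
  Matrix.of fun r => chain A c (ε.symm r).1 ((ε.symm r).2 : ℕ)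

/-- matrix with rows the shifted chains -/
noncomputable def Hm (A : Mat n) (c : Idx p s → Vec n) : Mat n :=
  Matrix.of fun r => chain A c (ε.symm r).1 ((ε.symm r).2 + 1 : ℕ)

theorem Gm_row (A : Mat n) (c : Idx p s → Vec n) (r : Fin n) :
    (Gm ε A c) r = chain A c (ε.symm r).1 ((ε.symm r).2 : ℕ) := rfl

theorem Hm_row (A : Mat n) (c : Idx p s → Vec n) (r : Fin n) :
    (Hm ε A c) r = chain A c (ε.symm r).1 ((ε.symm r).2 + 1 : ℕ) := rfl

/-- the root defined by a family of generators -/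
noncomputable def rootOf (A : Mat n) (c : Idx p s → Vec n) : Mat n :=
  Ring.inverse (Gm ε A c) * Hm ε A c

/-- kernels -/
noncomputable def Kk (A : Mat n) (k : Idx p s) : Submodule ℍ[ℝ] (Vec n) :=
  LinearMap.ker ((L A) ^ (len p s k))

/-- last vector maps -/
noncomputable def tk (A : Mat n) (k : Idx p s) : Vec n →ₗ[ℍ[ℝ]] Vec n :=
  (L A) ^ (len p s k - 1)

variable [Fintype ι] [DecidableEq ι]

theorem isUnit_Gm (hp : 0 < p) (A : Mat n) (c : Idx p s → Vec n)
    (hc : c ∈ indepSet (Kk (p := p) (s := s) A) (tk A)) : IsUnit (Gm ε A c) := by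
  apply isUnit_of_rows
  have h := chain_li hp A c (fun k => LinearMap.mem_ker.mp (hc.1 k)) hc.2
  exact h.comp ε.symm ε.symm.injective

theorem Gm_mul_rootOf (hp : 0 < p) (A : Mat n) (c : Idx p s → Vec n)
    (hc : c ∈ indepSet (Kk (p := p) (s := s) A) (tk A)) :
    Gm ε A c * rootOf ε A c = Hm ε A c := by
  unfold rootOf
  rw [← mul_assoc, Ring.mul_inverse_cancel _ (isUnit_Gm ε hp A c hc), one_mul]

theorem rootOf_pow (hp : 0 < p) (A : Mat n) (c : Idx p s → Vec n)
    (hc : c ∈ indepSet (Kk (p := p) (s := s) A) (tk A)) :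
    (rootOf ε A c) ^ p = A := by
  have hz : ∀ k, ((L A) ^ (len p s k)) (c k) = 0 := fun k => LinearMap.mem_ker.mp (hc.1 k)
  have hG := Gm_mul_rootOf ε hp A c hc
  have hstep : ∀ i l, L (rootOf ε A c) (chain A c i l) = chain A c i (l + 1) := by
    intro i l
    by_cases hl : l < s i
    · have h1 := congrFun hG (ε ⟨i, ⟨l, hl⟩⟩)
      rw [Matrix.mul_apply_eq_vecMul, Gm_row, Hm_row, Equiv.symm_apply_apply] at h1
      rw [L_apply]
      exact h1
    · rw [chain_eq_zero hp A c hz i l (not_lt.mp hl), map_zero,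
        chain_eq_zero hp A c hz i (l + 1) (by omega)]
  have hpow : ∀ k i l, ((L (rootOf ε A c)) ^ k) (chain A c i l) = chain A c i (l + k) := by
    intro k
    induction k with
    | zero => intro i l; simp
    | succ k ih =>
      intro i l
      rw [pow_succ', Module.End.mul_apply, ih, hstep]
      rfl
  apply L_injective
  rw [L_pow]
  have hli := chain_li hp A c hz hc.2
  have hspan : Submodule.span ℍ[ℝ]
      (Set.range fun x : (Σ i, Fin (s i)) => chain A c x.1 (x.2 : ℕ)) = ⊤ := by
    apply hli.span_eq_top_of_card_eq_finrank'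
    rw [Fintype.card_congr ε]
    simp
  apply LinearMap.ext_on hspan
  rintro _ ⟨x, rfl⟩
  simp only
  rw [hpow, chain_add hp]

theorem continuous_chain (A : Mat n) (i : ι) (l : ℕ) :
    Continuous (fun c : Idx p s → Vec n => chain A c i l) := by
  unfold chain
  have h1 : Continuous (fun v : Vec n => ((L A) ^ (l / p)) v) := by
    rw [← L_pow]
    simp only [L_apply]
    exact Continuous.matrix_vecMul continuous_id continuous_const
  have h2 : Continuous (fun c : Idx p s → Vec n => ext0 c i (l % p)) := by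
    unfold ext0
    split_ifs with h
    · exact continuous_apply _
    · exact continuous_const
  exact h1.comp h2

theorem continuous_Gm (A : Mat n) : Continuous (fun c : Idx p s → Vec n => Gm ε A c) := by
  apply continuous_matrix
  intro r t
  exact (continuous_apply t).comp (continuous_chain A _ _)

theorem continuous_Hm (A : Mat n) : Continuous (fun c : Idx p s → Vec n => Hm ε A c) := by
  apply continuous_matrix
  intro r t
  exact (continuous_apply t).comp (continuous_chain A _ _)

theorem continuousOn_rootOf (hp : 0 < p) (A : Mat n) :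
    ContinuousOn (fun c : Idx p s → Vec n => rootOf ε A c)
      (indepSet (Kk (p := p) (s := s) A) (tk A)) := by
  intro c hc
  apply ContinuousAt.continuousWithinAt
  unfold rootOf
  apply ContinuousAt.mul
  · exact ContinuousAt.comp (f := fun c : Idx p s → Vec n => Gm ε A c)
      (inverse_continuousAt n _ (isUnit_Gm ε hp A c hc)) (continuous_Gm ε A).continuousAt
  · exact (continuous_Hm ε A).continuousAt

/-- generators of a root -/
noncomputable def gens (X : Mat n) (b : ι → Vec n) (k : Idx p s) : Vec n :=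
  ((L X) ^ (k.1.2 : ℕ)) (b k.1.1)

theorem gens_mem (hp : 0 < p) {A X : Mat n} (hX : X ^ p = A) {b : ι → Vec n}
    (hf : IsFrame (L X) s b) :
    gens (p := p) (s := s) X b ∈ indepSet (Kk (p := p) (s := s) A) (tk A) := by
  have hLA : L A = (L X) ^ p := by rw [← hX, L_pow]
  constructor
  · intro k
    unfold Kk gens
    rw [LinearMap.mem_ker, hLA, ← pow_mul, ← Module.End.mul_apply, ← pow_add]
    apply pow_eq_zero_of_le (hf.zero k.1.1)
    have h1 := (lt_len_iff p s hp k (len p s k)).not.mp (lt_irrefl _)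
    rw [mul_comm p]
    omega
  · let φ : Idx p s → (Σ i, Fin (s i)) := fun k =>
      ⟨k.1.1, ⟨(len p s k - 1) * p + (k.1.2 : ℕ), by
        have h1 := len_pos p s hp k
        exact (lt_len_iff p s hp k (len p s k - 1)).mp (by omega)⟩⟩
    have hinj : Function.Injective φ := by
      rintro ⟨⟨i, j⟩, hk⟩ ⟨⟨i', j'⟩, hk'⟩ h
      simp only [φ, Sigma.mk.injEq] at h
      obtain ⟨h1, h2⟩ := h
      subst h1
      simp only [heq_eq_eq, Fin.mk.injEq] at h2
      have h3 := congrArg (fun x => x % p) h2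
      simp only [Nat.mul_add_mod', Nat.mod_eq_of_lt j.2, Nat.mod_eq_of_lt j'.2] at h3
      have : j = j' := Fin.ext h3
      subst this
      rfl
    have h2 := hf.li.comp φ hinj
    have heq : (fun k : Idx p s => tk A k (gens X b k)) =
        (fun x : (Σ i, Fin (s i)) => ((L X) ^ (x.2 : ℕ)) (b x.1)) ∘ φ := by
      funext k
      simp only [Function.comp_apply, φ, tk, gens]
      rw [hLA, ← pow_mul, ← Module.End.mul_apply, ← pow_add, mul_comm p]
    rw [heq]
    exact h2

theorem chain_gens (hp : 0 < p) {A X : Mat n} (hX : X ^ p = A) {b : ι → Vec n}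
    (hf : IsFrame (L X) s b) (i : ι) (l : ℕ) :
    chain A (gens (p := p) (s := s) X b) i l = ((L X) ^ l) (b i) := by
  have hLA : L A = (L X) ^ p := by rw [← hX, L_pow]
  unfold chain ext0
  split_ifs with h
  · unfold gens
    simp only
    rw [hLA, ← pow_mul, ← Module.End.mul_apply, ← pow_add, Nat.div_add_mod]
  · have h1 : s i ≤ l % p := by
      by_contra hlt
      exact h ⟨Nat.mod_lt _ hp, by omega⟩
    rw [map_zero, pow_eq_zero_of_le (hf.zero i) (h1.trans (Nat.mod_le _ _))]

theorem rootOf_gens (hp : 0 < p) {A X : Mat n} (hX : X ^ p = A) {b : ι → Vec n}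
    (hf : IsFrame (L X) s b) : rootOf ε A (gens (p := p) (s := s) X b) = X := by
  have hc := gens_mem hp hX hf
  have hU := isUnit_Gm ε hp A _ hc
  have h1 : Gm ε A (gens (p := p) (s := s) X b) * X = Hm ε A (gens (p := p) (s := s) X b) := by
    funext r
    rw [Matrix.mul_apply_eq_vecMul, Gm_row, Hm_row]
    rw [chain_gens hp hX hf, chain_gens hp hX hf, ← L_apply, ← Module.End.mul_apply, ← pow_succ']
  unfold rootOf
  rw [← h1, ← mul_assoc, Ring.inverse_mul_cancel _ hU, one_mul]

/-- Step 2: two roots with frames of the same sizes are joined. -/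
theorem joined_of_same (hp : 0 < p) {A X Y : Mat n} (hX : X ^ p = A) (hY : Y ^ p = A)
    {b b' : ι → Vec n} (hf : IsFrame (L X) s b) (hf' : IsFrame (L Y) s b') :
    JoinedIn (roots p A) X Y := by
  have hcard : Fintype.card (Σ i, Fin (s i)) = Fintype.card (Fin n) := by
    have := hf.card
    simp only [Module.finrank_fintype_fun_eq_card, Fintype.card_fin] at this
    simp [this]
  let ε : (Σ i, Fin (s i)) ≃ Fin n := Fintype.equivOfCardEq hcard
  have h1 := indepSet_joined (Kk (p := p) (s := s) A) (tk A) (gens_mem hp hX hf)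
    (gens_mem hp hY hf')
  have h2 := h1.map_continuousOn (continuousOn_rootOf ε hp A)
  rw [rootOf_gens ε hp hX hf, rootOf_gens ε hp hY hf'] at h2
  exact h2.mono (by
    rintro _ ⟨c, hc, rfl⟩
    exact rootOf_pow ε hp A c hc)

end same

theorem IsFrame.reindex {D V : Type*} [DivisionRing D] [AddCommGroup V] [Module D V]
    {ι : Type*} [Fintype ι] {T : V →ₗ[D] V} {s : ι → ℕ} {b : ι → V} (h : IsFrame T s b)
    (σ : Equiv.Perm ι) {s' : ι → ℕ} (hσ : ∀ i, s (σ i) = s' i) :
    IsFrame T s' (fun i => b (σ i)) := by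
  refine ⟨fun i => ?_, ?_, ?_⟩
  · rw [← hσ]; exact h.zero (σ i)
  · rw [eq_top_iff, ← h.span]
    apply orb_le
    intro i
    have := mem_orb T (fun i => b (σ i)) (σ.symm i)
    simpa using this
  · rw [← h.card, ← Equiv.sum_comp σ s]
    exact Finset.sum_congr rfl fun i _ => (hσ i).symm

/-- Main theorem. -/
theorem roots_joined {p : ℕ} (hp : 0 < p) {A : Mat n} (hA : IsNilpotent A) {X Y : Mat n}
    (hX : X ^ p = A) (hY : Y ^ p = A) : JoinedIn (roots p A) X Y := by
  have hnil : ∀ Z : Mat n, Z ^ p = A → IsNilpotent (L Z) := by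
    intro Z hZ
    obtain ⟨k, hk⟩ := hA
    refine ⟨p * k, ?_⟩
    rw [← L_pow, pow_mul, hZ, hk]
    unfold L
    rw [map_zero]
  have hfr : ∀ Z : Mat n, Z ^ p = A → ∃ (s : Fin n → ℕ) (b : Fin n → Vec n),
      IsFrame (L Z) s b := by
    intro Z hZ
    obtain ⟨s, b, h⟩ := exists_frame (L Z) (hnil Z hZ)
    have hn : finrank ℍ[ℝ] (Vec n) = n := by simp
    let e : Fin n ≃ Fin (finrank ℍ[ℝ] (Vec n)) := finCongr hn.symm
    refine ⟨fun i => s (e i), fun i => b (e i), fun i => h.zero (e i), ?_, ?_⟩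
    · rw [eq_top_iff, ← h.span]
      apply orb_le
      intro i
      have := mem_orb (L Z) (fun i => b (e i)) (e.symm i)
      simpa using this
    · exact (Equiv.sum_comp e s).trans h.card
  obtain ⟨s1, b1, h1⟩ := hfr X hX
  obtain ⟨s2, b2, h2⟩ := hfr Y hY
  obtain ⟨X', s1', b1', hX', hf1, hc1, hj1⟩ := exists_canon A _ X hX s1 b1 h1 rfl
  obtain ⟨Y', s2', b2', hY', hf2, hc2, hj2⟩ := exists_canon A _ Y hY s2 b2 h2 rfl
  have hsum : ∀ q : ℕ, ∑ i, (s1' i - q * p) = ∑ i, (s2' i - q * p) := by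
    intro q
    rw [← hf1.finrank_range, ← hf2.finrank_range, mul_comm q p, pow_mul, pow_mul, ← L_pow X',
      ← L_pow Y', hX', hY']
  obtain ⟨σ, hσ⟩ := canon_unique hp hc1 hc2 hsum
  have hj := joined_of_same hp hX' hY' (hf1.reindex σ hσ) hf2
  exact (hj1.trans hj).trans hj2.symm

end Pool.Agent.Helper23_QRoots
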